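import Mathlib
import Pool.Agent.Helper52.PS.Final

set_option autoImplicit false

/-!
The question asks whether, for every integer `n ≥ 4 * 10 ^ 6`, at least `⌊x₀(n)⌋` of the numbers
`S 1, …, S n` are prime, where `S n` is the sum of the first `2 n` primes. The answer is no:
it fails at `n = 4008615`.
-/

namespace Pool.Agent.Results.MP_e13726_nt.Disproof

/-- `S n` is the sum of the `2 n` smallest primes; `Nat.nth Nat.Prime i` is the prime `p_{i+1}`. -/
noncomputable def S (n : ℕ) : ℕ := ∑ i ∈ Finset.range (2 * n), Nat.nth Nat.Prime i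

/-- `primeCount n` is `π_n`: how many of the integers `S 1, …, S n` are prime. -/
noncomputable def primeCount (n : ℕ) : ℕ := ((Finset.Icc 1 n).filter (fun k => (S k).Prime)).card

/-- `R n = 2 n ^ (5/2) log n / S n`. -/
noncomputable def R (n : ℕ) : ℝ := 2 * (n : ℝ) ^ ((5 : ℝ) / 2) * Real.log n / (S n : ℝ)

/-- `x` is the number `x₀(n)`: the real number `x > 1` with `x log x = (R n) ^ 2`. -/
def IsX0 (n : ℕ) (x : ℝ) : Prop := 1 < x ∧ x * Real.log x = R n ^ 2

/-- There is an integer `n ≥ 4 * 10 ^ 6` such that fewer than `⌊x₀(n)⌋` of the numbers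
`S 1, …, S n` are prime. -/
theorem result : ∃ n : ℕ, 4 * 10 ^ 6 ≤ n ∧ (∃ x : ℝ, IsX0 n x) ∧
    ∀ x : ℝ, IsX0 n x → (primeCount n : ℤ) < ⌊x⌋ := by
  have hinv := Pool.Agent.Helper52.PS.final_inv
  have hS : S 4008615 = 551974495875755 := hinv.1
  have hcard : primeCount 4008615 ≤ 252501 := hinv.2
  have hR : R 4008615 ^ 2 =
      4 * 4008615 ^ 5 * (Real.log 4008615) ^ 2 / (551974495875755 : ℝ) ^ 2 := by
    unfold R
    rw [hS]
    rw [div_pow, mul_pow, mul_pow, ← Real.rpow_natCast ((((4008615 : ℕ) : ℝ)) ^ ((5 : ℝ) / 2)) 2,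
      ← Real.rpow_mul (by positivity)]
    rw [show (5 : ℝ) / 2 * ((2 : ℕ) : ℝ) = ((5 : ℕ) : ℝ) by norm_num, Real.rpow_natCast]
    push_cast
    norm_num
  have key := Pool.Agent.Helper52.PS.key_ineq
  refine ⟨4008615, by norm_num, ?_, ?_⟩
  · unfold IsX0
    apply Pool.Agent.Helper52.PS.exists_xlogx
    rw [hR]
    have : (0 : ℝ) < 252510 * Real.log 252510 :=
      mul_pos (by norm_num) (Real.log_pos (by norm_num))
    linarith
  · rintro x ⟨hx1, hx2⟩
    have hge : (252510 : ℝ) ≤ x := by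
      by_contra hcon
      push Not at hcon
      have := Pool.Agent.Helper52.PS.xlogx_mono hx1 hcon.le
      rw [hx2, hR] at this
      linarith
    have h1 : (252510 : ℤ) ≤ ⌊x⌋ := by
      rw [Int.le_floor]
      exact_mod_cast hge
    have h2 : (primeCount 4008615 : ℤ) ≤ 252501 := by exact_mod_cast hcard
    omega

end Pool.Agent.Results.MP_e13726_nt.Disproof
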